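import Pool.Agent.H38.PR.Main

/-! From the lower bound `S_gamma` to `S_core`. -/

open Finset

namespace Pool.Agent.H38.PR

/-- position of the corner of a box -/
def loc (S : ℕ) (q : O) (A : ℝ) (y : O) : Prop :=
  10 * S * s1 q ≤ s1 y ∧ 10 * S * s2 q ≤ s2 y ∧ s1 y ≤ A * S ∧ s2 y ≤ A * S

/-- `dd` is a density attained in arbitrarily large boxes (in a fixed relative position) -/
def good (T : Set O) (dd : ℝ) : Prop :=
  ∃ q, Pos q ∧ ∃ A : ℝ, ∀ S₀ : ℕ, ∃ S ≥ S₀, ∃ y : O, loc S q A y ∧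
    dd ≤ av S (fun s => ind T (y + q * s))

lemma ind_bd (T : Set O) (x : O) : 0 ≤ ind T x ∧ ind T x ≤ 1 := by
  unfold ind
  split_ifs <;> norm_num

lemma good_le_one {T : Set O} {dd : ℝ} (h : good T dd) : dd ≤ 1 := by
  obtain ⟨q, _, A, h⟩ := h
  obtain ⟨S, hS, y, _, h2⟩ := h 1
  exact h2.trans (av_le_of_le hS fun _ _ => (ind_bd _ _).2)

lemma sqrt2_bd : (1.4 : ℝ) < √2 ∧ √2 < 1.5 := by
  constructor
  · exact Real.lt_sqrt_of_sq_lt (by norm_num)
  · rw [Real.sqrt_lt' (by norm_num)]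
    norm_num

lemma s1_apply (z : O) : s1 z = (z.re : ℝ) + (z.im : ℝ) * √2 := rfl

lemma s2_apply (z : O) : s2 z = (z.re : ℝ) - (z.im : ℝ) * √2 := rfl

lemma s_Bx {S : ℕ} {s : O} (h : s ∈ Bx S) :
    0 ≤ s1 s ∧ s1 s ≤ 3 * S ∧ -(1.5 * S) ≤ s2 s ∧ s2 s ≤ S := by
  rw [mem_Bx] at h
  obtain ⟨h1, h2, h3, h4⟩ := h
  have h1' : (0 : ℝ) ≤ s.re := by exact_mod_cast h1
  have h3' : (0 : ℝ) ≤ s.im := by exact_mod_cast h3
  have h2' : (s.re : ℝ) ≤ S := by exact_mod_cast h2.le
  have h4' : (s.im : ℝ) ≤ S := by exact_mod_cast h4.le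
  have := sqrt2_bd
  rw [s1_apply, s2_apply]
  refine ⟨by positivity, ?_, ?_, ?_⟩ <;> nlinarith

lemma good_pos {T : Set O} {F : Finset O} (hF : ∀ f ∈ F, Pos f)
    (h : ∀ h, Pos h → ∃ f ∈ F, f * h ∈ T) : good T (1 / (F.card : ℝ)) := by
  have hne : F.Nonempty := by
    obtain ⟨f, hf, _⟩ := h 1 ⟨by simp, by simp⟩
    exact ⟨f, hf⟩
  have hk : (0 : ℝ) < F.card := by exact_mod_cast hne.card_pos
  have key : ∀ S : ℕ, 0 < S → ∃ f ∈ F, 1 / (F.card : ℝ) ≤
      av S (fun s => ind T (10 * S * f + f * s)) := by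
    intro S hS
    refine exists_le_of_sum_le hne ?_
    rw [sum_const, nsmul_eq_mul, mul_one_div_cancel hk.ne', ← av_sum]
    refine le_av_of_le hS fun s hs => ?_
    have hS' : (0 : ℝ) < S := by exact_mod_cast hS
    have hp : Pos (10 * S + s) := by
      have := s_Bx hs
      constructor
      · simp only [map_add, map_mul, map_natCast, map_ofNat]
        linarith [this.1]
      · simp only [map_add, map_mul, map_natCast, map_ofNat]
        linarith [this.2.2.1]
    obtain ⟨f, hf, hT⟩ := h _ hp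
    have : ind T (10 * S * f + f * s) = 1 := by
      unfold ind
      rw [if_pos]
      convert hT using 1
      ring
    rw [← this]
    exact single_le_sum (f := fun f => ind T (10 * S * f + f * s))
      (fun _ _ => (ind_bd _ _).1) hf
  have : ∃ f ∈ F, ∀ S₀ : ℕ, ∃ S ≥ S₀, 1 / (F.card : ℝ) ≤
      av S (fun s => ind T (10 * S * f + f * s)) := by
    by_contra hcon
    push Not at hcon
    choose! S₀ hS₀ using hcon
    obtain ⟨f, hf, hf2⟩ := key (F.sup S₀ + 1) (by omega)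
    have := hS₀ f hf (F.sup S₀ + 1) (by have := le_sup (f := S₀) hf; omega)
    exact absurd hf2 (not_le.mpr this)
  obtain ⟨f, hf, hS⟩ := this
  have hfp := hF f hf
  refine ⟨f, hfp, 10 * (s1 f + s2 f), fun S₀ => ?_⟩
  obtain ⟨S, hSS, h2⟩ := hS S₀
  refine ⟨S, hSS, 10 * S * f, ⟨?_, ?_, ?_, ?_⟩, h2⟩
  · simp only [map_mul, map_natCast, map_ofNat]; exact le_rfl
  · simp only [map_mul, map_natCast, map_ofNat]; exact le_rfl
  · simp only [map_mul, map_natCast, map_ofNat]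
    have := hfp.1
    have := hfp.2
    have : (0 : ℝ) ≤ S * s2 f := by positivity
    nlinarith
  · simp only [map_mul, map_natCast, map_ofNat]
    have := hfp.1
    have := hfp.2
    have : (0 : ℝ) ≤ S * s1 f := by positivity
    nlinarith

lemma dvd_natAbs_norm (z : O) : z ∣ ((z.norm.natAbs : ℕ) : O) := by
  have h : z ∣ ((z.norm : ℤ) : O) := ⟨star z, by rw [Zsqrtd.norm_eq_mul_conj]⟩
  rcases Int.natAbs_eq z.norm with h2 | h2
  · have : ((z.norm.natAbs : ℕ) : O) = ((z.norm : ℤ) : O) := by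
      conv_rhs => rw [h2]
      simp
    rw [this]; exact h
  · have : ((z.norm.natAbs : ℕ) : O) = -((z.norm : ℤ) : O) := by
      conv_rhs => rw [h2]
      simp
    rw [this]; exact (dvd_neg).mpr h

lemma natAbs_norm_pos {z : O} (hz : z ≠ 0) : 0 < z.norm.natAbs := by
  rw [Int.natAbs_pos]
  intro h
  have h2 : ∀ r : ℤ, r * r ≠ 2 := by
    intro r hr
    have h3 : r < 2 := by nlinarith
    have h4 : -2 < r := by nlinarith
    interval_cases r <;> omega
  exact hz ((Zsqrtd.norm_eq_zero (fun r hr => h2 r hr.symm) z).mp h)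

lemma locs_aux {S : ℕ} {q y s : O} {A : ℝ} (hs : s ∈ Bx S) (hq1 : 0 < s1 q) (hq2 : 0 < s2 q)
    (hl1 : 10 * S * s1 q ≤ s1 y) (hl2 : 10 * S * s2 q ≤ s2 y) (hl3 : s1 y ≤ A * S)
    (hl4 : s2 y ≤ A * S) :
    8.5 * S * s1 q ≤ s1 (y + q * s) ∧ 8.5 * S * s2 q ≤ s2 (y + q * s) ∧
      s1 (y + q * s) ≤ (|A| + 3 * (s1 q + s2 q)) * S ∧
      s2 (y + q * s) ≤ (|A| + 3 * (s1 q + s2 q)) * S := by
  obtain ⟨b1, b2, b3, b4⟩ := s_Bx hs
  have hA := le_abs_self A
  simp only [map_add, map_mul]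
  have c1 : 0 ≤ s1 q * s1 s := by positivity
  have c2 : s1 q * s1 s ≤ s1 q * (3 * S) := by gcongr
  have c3 : s2 q * (-(1.5 * S)) ≤ s2 q * s2 s := by gcongr
  have c4 : s2 q * s2 s ≤ s2 q * S := by gcongr
  have c5 : A * S ≤ |A| * S := by gcongr
  have c6 : 0 ≤ s1 q * S := by positivity
  have c7 : 0 ≤ s2 q * S := by positivity
  have e1 : (|A| + 3 * (s1 q + s2 q)) * S = |A| * S + 3 * (s1 q * S) + 3 * (s2 q * S) := by ring
  rw [e1]
  refine ⟨by linarith, by linarith, by linarith, by linarith⟩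

lemma lo_aux {S L d x z : ℝ} (hLd : L * d ≤ S / 2) (hx : 0 < x) (hS : 0 ≤ S)
    (hb : 8.5 * S * x ≤ z) : 10 * L * (x * d) ≤ z := by
  have h1 : L * d * x ≤ S / 2 * x := mul_le_mul_of_nonneg_right hLd hx.le
  have h2 : 0 ≤ S * x := by positivity
  have e1 : 10 * L * (x * d) = 10 * (L * d * x) := by ring
  have e2 : S / 2 * x = (S * x) / 2 := by ring
  have e3 : 8.5 * S * x = 8.5 * (S * x) := by ring
  rw [e1]
  rw [e2] at h1
  rw [e3] at hb
  linarith

lemma ratio_aux {C W S K : ℝ} (hS : 0 < S) (hK : 0 < K) (hC : 0 ≤ C) (h : W ≤ S / K) :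
    C * W / S ≤ C / K := by
  rw [div_le_div_iff₀ hS hK]
  rw [le_div_iff₀ hK] at h
  have := mul_le_mul_of_nonneg_left h hC
  linarith

lemma final_aux {β N r θ D γ k ε : ℝ} (hβ0 : 0 < β) (hN1 : 1 / N ≤ β ^ 2 / 48)
    (hr3 : r ≤ β ^ 2 / 768) (hr2 : r ≤ β / 200) (hθ : θ ≤ β ^ 2 / 768) (hk : 1 ≤ k)
    (hβ : β = γ / k ^ 2) (hγ : 0 < γ) (hDk : 1 / k ≤ D) (hε2 : ε ≤ β / 24)
    (hmain : D ^ 2 * γ ≤ √(1 / N + 16 * r + 4 * θ) + 3 * (2 * ε) + 48 * r) : False := by
  have e1 : √(1 / N + 16 * r + 4 * θ) ≤ β / 4 := by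
    rw [Real.sqrt_le_left (by positivity)]
    have h3 : 0 < β ^ 2 := by positivity
    have h4 : (β / 4) ^ 2 = β ^ 2 / 16 := by ring
    rw [h4]
    linarith
  have e2 : β ≤ D ^ 2 * γ := by
    rw [hβ, div_eq_mul_inv, mul_comm]
    have : (1 / k) ^ 2 ≤ D ^ 2 := by gcongr
    have h4 : (k ^ 2)⁻¹ = (1 / k) ^ 2 := by rw [one_div, inv_pow]
    rw [h4]
    gcongr
  linarith

theorem core_of_gamma (HG : S_gamma) : S_core := by
  classical
  intro T hT
  obtain ⟨hTP, F, hF, hFT⟩ := hT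
  by_contra hno
  push Not at hno
  have hne : F.Nonempty := by
    obtain ⟨f, hf, _⟩ := hFT 1 ⟨by simp, by simp⟩
    exact ⟨f, hf⟩
  have hk : (1 : ℝ) ≤ F.card := by exact_mod_cast hne.card_pos
  obtain ⟨γ, hγ, HG⟩ := HG F hF
  set k : ℝ := (F.card : ℝ) with hkdef
  -- the maximal density
  set G : Set ℝ := {dd | good T dd} with hG
  have hGb : BddAbove G := ⟨1, fun dd h => good_le_one h⟩
  have hG1 : 1 / k ∈ G := good_pos hF hFT
  set ds : ℝ := sSup G with hds
  have hds1 : 1 / k ≤ ds := le_csSup hGb hG1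
  have hds2 : ds ≤ 1 := csSup_le ⟨_, hG1⟩ fun dd h => good_le_one h
  set β : ℝ := γ / k ^ 2 with hβ
  have hβ0 : 0 < β := by positivity
  set ε : ℝ := min 1 (β / 24) with hε
  have hε0 : 0 < ε := by positivity
  have hε1 : ε ≤ 1 := min_le_left _ _
  have hε2 : ε ≤ β / 24 := min_le_right _ _
  set D : ℝ := ds + ε with hD
  have hDk : 1 / k ≤ D := by linarith
  have hD0 : 0 ≤ D := le_trans (by positivity) hDk
  -- a near maximal density
  obtain ⟨dd, hdd, hdd2⟩ : ∃ dd ∈ G, ds - ε < dd := exists_lt_of_lt_csSup ⟨_, hG1⟩ (by linarith)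
  obtain ⟨q, hq, A, hgood⟩ := hdd
  have hup : ¬ good T D := fun h => by
    have := le_csSup hGb (show D ∈ G from h)
    linarith
  unfold good at hup
  push Not at hup
  -- the number `N`
  obtain ⟨N, hN⟩ := exists_nat_gt (48 / β ^ 2)
  have hN0 : (0 : ℝ) < N := lt_of_le_of_lt (by positivity) hN
  have hNpos : 0 < N := by exact_mod_cast hN0
  have hN1 : 1 / (N : ℝ) ≤ β ^ 2 / 48 := by
    rw [div_lt_iff₀ (by positivity)] at hN
    rw [div_le_div_iff₀ hN0 (by norm_num)]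
    linarith
  obtain ⟨μ, hμ1, hμ2, S₁, HG⟩ := HG q hq A N
  set lam : O → ℕ → O := fun f v => (1 + q * μ f v) ^ 3 with hlam
  -- the common multiple
  set d : ℕ := ∏ f ∈ F, ∏ v ∈ range N, ∏ v' ∈ range N,
    (if v = v' then 1 else (lam f v' - lam f v).norm.natAbs) with hd
  have hdpos : 0 < d := by
    rw [hd]
    refine prod_pos fun f hf => prod_pos fun v hv => prod_pos fun v' hv' => ?_
    rw [mem_range] at hv hv'
    split_ifs with h
    · norm_num
    · exact natAbs_norm_pos (sub_ne_zero.mpr (hμ2 f hf v' hv' v hv (Ne.symm h)))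
  have hdvd : ∀ f ∈ F, ∀ v < N, ∀ v' < N, v ≠ v' → ∃ e, (lam f v' - lam f v) * e = (d : O) := by
    intro f hf v hv v' hv' hvv
    have h1 : (lam f v' - lam f v) ∣ (((lam f v' - lam f v).norm.natAbs : ℕ) : O) :=
      dvd_natAbs_norm _
    have h2 : (lam f v' - lam f v).norm.natAbs ∣ d := by
      rw [hd]
      refine dvd_trans ?_ (dvd_prod_of_mem _ hf)
      refine dvd_trans ?_ (dvd_prod_of_mem _ (mem_range.mpr hv))
      refine dvd_trans ?_ (dvd_prod_of_mem _ (mem_range.mpr hv'))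
      rw [if_neg hvv]
    obtain ⟨m, hm⟩ := h2
    obtain ⟨e, he⟩ := h1
    refine ⟨e * m, ?_⟩
    rw [← mul_assoc, ← he]
    conv_rhs => rw [hm]
    push_cast
    ring
  choose! e he using hdvd
  -- the constant `C`
  set Bf : O → ℕ → ℕ → ℝ := fun f v v' =>
    nn (lam f v) + nn (e f v v') + nn (lam f v * e f v v') with hBf
  have hBf0 : ∀ f v v', 0 ≤ Bf f v v' := fun f v v' =>
    add_nonneg (add_nonneg (nn_nonneg _) (nn_nonneg _)) (nn_nonneg _)
  set C : ℝ := 1 + d + ∑ f ∈ F, ∑ v ∈ range N, ∑ v' ∈ range N, Bf f v v' with hC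
  have hCsum : 0 ≤ ∑ f ∈ F, ∑ v ∈ range N, ∑ v' ∈ range N, Bf f v v' :=
    sum_nonneg fun _ _ => sum_nonneg fun _ _ => sum_nonneg fun _ _ => hBf0 _ _ _
  have hC1 : 1 ≤ C := by
    have : (0 : ℝ) ≤ d := by positivity
    linarith
  have hCd : (d : ℝ) ≤ C := by linarith
  have hCB : ∀ f ∈ F, ∀ v < N, ∀ v' < N, Bf f v v' ≤ C := by
    intro f hf v hv v' hv'
    have h1 : Bf f v v' ≤ ∑ v' ∈ range N, Bf f v v' :=
      single_le_sum (f := fun v' => Bf f v v') (fun _ _ => hBf0 _ _ _) (mem_range.mpr hv')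
    have h2 : ∑ v' ∈ range N, Bf f v v' ≤ ∑ v ∈ range N, ∑ v' ∈ range N, Bf f v v' :=
      single_le_sum (f := fun v => ∑ v' ∈ range N, Bf f v v')
        (fun _ _ => sum_nonneg fun _ _ => hBf0 _ _ _) (mem_range.mpr hv)
    have h3 : ∑ v ∈ range N, ∑ v' ∈ range N, Bf f v v' ≤
        ∑ f ∈ F, ∑ v ∈ range N, ∑ v' ∈ range N, Bf f v v' :=
      single_le_sum (f := fun f => ∑ v ∈ range N, ∑ v' ∈ range N, Bf f v v')
        (fun _ _ => sum_nonneg fun _ _ => sum_nonneg fun _ _ => hBf0 _ _ _) hf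
    have : (0 : ℝ) ≤ d := by positivity
    linarith
  -- the ratio `K`
  set ζ : ℝ := min (1 / 2) (min (β / 200) (β ^ 2 / 768)) with hζ
  have hζ0 : 0 < ζ := by positivity
  have hζ1 : ζ ≤ 1 / 2 := min_le_left _ _
  have hζ2 : ζ ≤ β / 200 := (min_le_right _ _).trans (min_le_left _ _)
  have hζ3 : ζ ≤ β ^ 2 / 768 := (min_le_right _ _).trans (min_le_right _ _)
  obtain ⟨K, hK⟩ := exists_nat_gt (C / ζ)
  have hK0 : (0 : ℝ) < K := lt_of_le_of_lt (by positivity) hK
  have hKpos : 0 < K := by exact_mod_cast hK0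
  have hKC : C / K ≤ ζ := by
    rw [div_lt_iff₀ hζ0] at hK
    rw [div_le_iff₀ hK0]
    linarith
  set A' : ℝ := (|A| + 3 * (s1 q + s2 q)) * (2 * K ^ 2) with hA'
  have hq1 := hq.1
  have hq2 := hq.2
  have hqd : Pos (q * (d : O)) := by
    have : (0 : ℝ) < d := by exact_mod_cast hdpos
    constructor
    · rw [map_mul, map_natCast]; positivity
    · rw [map_mul, map_natCast]; positivity
  obtain ⟨S₂, hS₂⟩ := hup (q * (d : O)) hqd A'
  obtain ⟨S₃, hS₃⟩ := hup q hq A'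
  obtain ⟨S, hS, y, hloc, hdens⟩ := hgood (S₁ + (S₂ + S₃ + 2) * K ^ 2 * 2)
  have hSge1 : S₁ ≤ S := le_trans (Nat.le_add_right _ _) hS
  have hSge2 : (S₂ + S₃ + 2) * K ^ 2 * 2 ≤ S := le_trans (Nat.le_add_left _ _) hS
  set W : ℕ := S / K with hW
  set L : ℕ := S / K ^ 2 with hL
  have hLge : S₂ + S₃ + 2 ≤ L := by
    rw [hL, Nat.le_div_iff_mul_le (by positivity)]
    exact le_trans (Nat.le_mul_of_pos_right _ (by norm_num)) hSge2
  have hLW' : L = W / K := by
    rw [hL, hW, Nat.div_div_eq_div_mul, sq]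
  have hLW : L ≤ W := by rw [hLW']; exact Nat.div_le_self _ _
  have hLpos : 0 < L := by omega
  have hWpos : 0 < W := by omega
  have hSpos : 0 < S := by
    have : W ≤ S := Nat.div_le_self _ _
    omega
  have hSR : (0 : ℝ) < S := by exact_mod_cast hSpos
  have hWR : (0 : ℝ) < W := by exact_mod_cast hWpos
  have hLR : (0 : ℝ) < L := by exact_mod_cast hLpos
  have hLWR : (L : ℝ) ≤ W := by exact_mod_cast hLW
  have hWS : (W : ℝ) ≤ S / K := Nat.cast_div_le
  have hLW2 : (L : ℝ) ≤ W / K := by rw [hLW']; exact Nat.cast_div_le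
  have hκ : C * W / S ≤ ζ := by
    refine le_trans ?_ hKC
    exact ratio_aux hSR hK0 (by linarith) hWS
  have hθ : (L : ℝ) / W ≤ ζ := by
    refine le_trans ?_ hKC
    have := ratio_aux hWR hK0 (C := C) (by linarith) hLW2
    refine le_trans ?_ this
    gcongr
    exact le_mul_of_one_le_left hLR.le hC1
  have hCW : C * W ≤ S / 2 := by
    rw [div_le_iff₀ hSR] at hκ
    have := mul_le_mul_of_nonneg_right hζ1 hSR.le
    linarith
  have hSL : (S : ℝ) ≤ 2 * K ^ 2 * L := by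
    have h1 : S < K ^ 2 * (L + 1) := by
      rw [hL]
      exact Nat.lt_mul_div_succ S (by positivity)
    have h2 : (S : ℝ) < K ^ 2 * (L + 1) := by exact_mod_cast h1
    have h3 : (1 : ℝ) ≤ L := by exact_mod_cast hLpos
    have h4 : (0 : ℝ) < K ^ 2 := by positivity
    have h5 := mul_le_mul_of_nonneg_left h3 h4.le
    linarith
  obtain ⟨hl1, hl2, hl3, hl4⟩ := hloc
  -- location of the corners
  have hlocs : ∀ s ∈ Bx S, 8.5 * S * s1 q ≤ s1 (y + q * s) ∧ 8.5 * S * s2 q ≤ s2 (y + q * s) ∧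
      s1 (y + q * s) ≤ (|A| + 3 * (s1 q + s2 q)) * S ∧
      s2 (y + q * s) ≤ (|A| + 3 * (s1 q + s2 q)) * S := by
    intro s hs
    exact locs_aux hs hq1 hq2 hl1 hl2 hl3 hl4
  set a : O → ℝ := fun s => ind T (y + q * s) with ha
  set g : O → ℝ := fun x => ind T (rt * q * x) with hg
  have h1 : ∀ s ∈ Bx S, av L (fun u => a (s + (d : O) * u)) ≤ D := by
    intro s hs
    obtain ⟨b1, b2, b3, b4⟩ := hlocs s hs
    have hLd : (L : ℝ) * d ≤ S / 2 := by
      have : (L : ℝ) * d ≤ W * C := by gcongr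
      linarith
    have hA0 : 0 ≤ |A| + 3 * (s1 q + s2 q) := by positivity
    have hAL : (|A| + 3 * (s1 q + s2 q)) * S ≤ A' * L := by
      rw [hA']
      have := mul_le_mul_of_nonneg_left hSL hA0
      linarith
    have := hS₂ L (by omega) (y + q * s) ⟨?_, ?_, b3.trans hAL, b4.trans hAL⟩
    · refine le_of_eq_of_le (av_congr fun u _ => ?_) this.le
      rw [ha]
      simp only
      congr 1
      ring
    · rw [map_mul, map_natCast]
      exact lo_aux hLd hq1 hSR.le b1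
    · rw [map_mul, map_natCast]
      exact lo_aux hLd hq2 hSR.le b2
  have h2 : ∀ s ∈ Bx S, av W (fun w => a (s + w)) ≤ D := by
    intro s hs
    obtain ⟨b1, b2, b3, b4⟩ := hlocs s hs
    have hLd : (W : ℝ) ≤ S / 2 := by
      have : (1 : ℝ) * W ≤ C * W := by gcongr
      linarith
    have hA0 : 0 ≤ |A| + 3 * (s1 q + s2 q) := by positivity
    have hSW : (S : ℝ) ≤ 2 * K ^ 2 * W := by
      refine hSL.trans ?_
      gcongr
    have hAL : (|A| + 3 * (s1 q + s2 q)) * S ≤ A' * W := by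
      rw [hA']
      have := mul_le_mul_of_nonneg_left hSW hA0
      linarith
    have := hS₃ W (by omega) (y + q * s) ⟨?_, ?_, b3.trans hAL, b4.trans hAL⟩
    · refine le_of_eq_of_le (av_congr fun u _ => ?_) this.le
      rw [ha]
      simp only
      congr 1
      ring
    · have := lo_aux (L := (W : ℝ)) (d := 1) (by rw [mul_one]; exact hLd) hq1 hSR.le b1
      rwa [mul_one] at this
    · have := lo_aux (L := (W : ℝ)) (d := 1) (by rw [mul_one]; exact hLd) hq2 hSR.le b2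
      rwa [mul_one] at this
  obtain ⟨f, hf, hΓ⟩ := HG S hSge1 y hl1 hl2 hl3 hl4 T hFT
  have hmain := main_ineq (S := S) (W := W) (L := L) (N := N) (d := d) hSpos hWpos hLpos hNpos hLW
    (a := a) (g := g) (fun x => ind_bd _ _) (fun x => ind_bd _ _) (lam f)
    (fun v => tau q (μ f v) y) (e f) C D (2 * ε) γ (fun v hv v' hv' h => he f hf v hv v' hv' h)
    hC1 (fun v hv => ?_) (fun v hv v' hv' => ?_) (fun v hv v' hv' => ?_) hCd hD0
    (by linarith) (by linarith) h1 h2 (by linarith) hΓ (fun v hv => ?_)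
  · -- the final contradiction
    exact final_aux hβ0 hN1 (hκ.trans hζ3) (hκ.trans hζ2) (hθ.trans hζ3) hk hβ hγ hDk hε2 hmain
  · have := hCB f hf v hv v hv
    rw [hBf] at this
    simp only at this
    linarith [nn_nonneg (e f v v), nn_nonneg (lam f v * e f v v)]
  · have := hCB f hf v hv v' hv'
    rw [hBf] at this
    simp only at this
    linarith [nn_nonneg (lam f v), nn_nonneg (lam f v * e f v v')]
  · have := hCB f hf v hv v' hv'
    rw [hBf] at this
    simp only at this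
    linarith [nn_nonneg (lam f v), nn_nonneg (e f v v')]
  · rw [← E2_const hSpos 0]
    refine E2_congr fun s _ t _ => ?_
    by_contra hne0
    have m1 : y + q * s ∈ T := by
      by_contra h
      apply hne0
      rw [ha]
      simp [ind, h]
    have m2 : y + q * t ∈ T := by
      by_contra h
      apply hne0
      rw [ha]
      simp [ind, h]
    have m3 : rt * q * (lam f v * s + tau q (μ f v) y - t) ∈ T := by
      by_contra h
      apply hne0
      rw [hg]
      simp only [ind]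
      rw [if_neg h]
      ring
    refine hno _ m3 _ m2 _ m1 (1 + q * μ f v) (hμ1 f hf v hv) ?_
    rw [hlam]
    simp only [tau]
    ring

end Pool.Agent.H38.PR
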