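import Mathlib

/-! Definitions for the partition regularity of `2 x + 2 √2 y = w z ^ 3` over the totally positive
elements of `ℤ[√2]` (MP_15abe0_co), and the statements of the separate steps. -/

open Finset

namespace Pool.Agent.H38.PR

/-- `ℤ[√2]` -/
abbrev O := Zsqrtd 2

lemma sq2 : (√2 : ℝ) * √2 = 2 := Real.mul_self_sqrt (by norm_num)

/-- the first real embedding `a + b √2 ↦ a + b √2` -/
noncomputable def s1 : O →+* ℝ where
  toFun z := (z.re : ℝ) + (z.im : ℝ) * √2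
  map_one' := by simp
  map_zero' := by simp
  map_mul' x y := by
    simp only [Zsqrtd.re_mul, Zsqrtd.im_mul]
    push_cast
    linear_combination (-(x.im : ℝ) * (y.im : ℝ)) * sq2
  map_add' x y := by
    simp only [Zsqrtd.re_add, Zsqrtd.im_add]
    push_cast
    ring

/-- the second real embedding `a + b √2 ↦ a - b √2` -/
noncomputable def s2 : O →+* ℝ where
  toFun z := (z.re : ℝ) - (z.im : ℝ) * √2
  map_one' := by simp
  map_zero' := by simp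
  map_mul' x y := by
    simp only [Zsqrtd.re_mul, Zsqrtd.im_mul]
    push_cast
    linear_combination (-(x.im : ℝ) * (y.im : ℝ)) * sq2
  map_add' x y := by
    simp only [Zsqrtd.re_add, Zsqrtd.im_add]
    push_cast
    ring

/-- totally positive -/
def Pos (z : O) : Prop := 0 < s1 z ∧ 0 < s2 z

/-- signature `(+, -)` -/
def Neg (z : O) : Prop := 0 < s1 z ∧ s2 z < 0

/-- the element `√2` -/
def rt : O := ⟨0, 1⟩

/-- `T` is a multiplicatively syndetic set of totally positive elements -/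
def Synd (T : Set O) : Prop :=
  (∀ x ∈ T, Pos x) ∧ ∃ F : Finset O, (∀ f ∈ F, Pos f) ∧ ∀ h, Pos h → ∃ f ∈ F, f * h ∈ T

/-- STEP 1 (analytic core). -/
def S_core : Prop := ∀ T : Set O, Synd T →
  ∃ X ∈ T, ∃ Y ∈ T, ∃ W ∈ T, ∃ ρ : O, Neg ρ ∧ X = rt * (W * ρ ^ 3 - Y)

/-- STEP 2 (`z` not coloured). -/
def S_free : Prop := ∀ (κ : Type) [Finite κ] (c : O → κ), ∃ X Y W ρ : O,
  Pos X ∧ Pos Y ∧ Pos W ∧ Neg ρ ∧ c X = c Y ∧ c X = c W ∧ X = rt * (W * ρ ^ 3 - Y)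

/-- STEP 3 (the full answer). -/
def S_full : Prop := ∀ (κ : Type) [Finite κ] (c : O → κ), ∃ w x y z : O,
  Pos w ∧ Pos x ∧ Pos y ∧ Pos z ∧ c w = c x ∧ c w = c y ∧ c w = c z ∧
    2 * x + 2 * rt * y = w * z ^ 3

/-- the box `{a + b √2 : 0 ≤ a, b < S}` -/
def Bx (S : ℕ) : Finset O :=
  ((range S) ×ˢ (range S)).map ⟨fun p => (⟨(p.1 : ℤ), (p.2 : ℤ)⟩ : O), by
    rintro ⟨a, b⟩ ⟨a', b'⟩ h
    simp only [Zsqrtd.mk.injEq, Nat.cast_inj] at h
    simp [h.1, h.2]⟩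

/-- average over the box -/
noncomputable def av (S : ℕ) (Φ : O → ℝ) : ℝ := (∑ s ∈ Bx S, Φ s) / (S : ℝ) ^ 2

/-- double average -/
noncomputable def E2 (S : ℕ) (Φ : O → O → ℝ) : ℝ := av S (fun s => av S (fun t => Φ s t))

open Classical in
/-- indicator function of `T` -/
noncomputable def ind (T : Set O) (x : O) : ℝ := if x ∈ T then 1 else 0

/-- `(ρ ^ 3 - 1) y / q` for `ρ = 1 + q μ` -/
def tau (q μ y : O) : O := μ * ((1 + q * μ) ^ 2 + (1 + q * μ) + 1) * y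

/-- STEP 1a (the lower bound for the number of points `√2 (ρ ^ 3 W - Y)` in `T`). -/
def S_gamma : Prop := ∀ F : Finset O, (∀ f ∈ F, Pos f) → ∃ γ : ℝ, 0 < γ ∧
  ∀ q : O, Pos q → ∀ (A : ℝ) (N : ℕ), ∃ μ : O → ℕ → O,
    (∀ f ∈ F, ∀ v < N, Neg (1 + q * μ f v)) ∧
    (∀ f ∈ F, ∀ v < N, ∀ v' < N, v ≠ v' → (1 + q * μ f v) ^ 3 ≠ (1 + q * μ f v') ^ 3) ∧
    ∃ S₀ : ℕ, ∀ S ≥ S₀, ∀ y : O,
      10 * S * s1 q ≤ s1 y → 10 * S * s2 q ≤ s2 y → s1 y ≤ A * S → s2 y ≤ A * S →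
      ∀ T : Set O, (∀ h, Pos h → ∃ f ∈ F, f * h ∈ T) →
        ∃ f ∈ F, ∀ v < N, γ ≤ E2 S (fun s t =>
          ind T (rt * q * ((1 + q * μ f v) ^ 3 * s + tau q (μ f v) y - t)))

end Pool.Agent.H38.PR
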