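import Pool.Agent.H38.PR.Avg

/-! The main inequality. -/

open Finset

namespace Pool.Agent.H38.PR

/-- average of `g` along a progression of difference `d` -/
noncomputable def gP (L d : ℕ) (g : O → ℝ) (x : O) : ℝ := av L (fun u => g (x + (d : O) * u))

/-- `g` minus its local average -/
noncomputable def gT (L d : ℕ) (g : O → ℝ) (x : O) : ℝ := g x - gP L d g x

lemma gP_bd {L d : ℕ} (hL : 0 < L) {g : O → ℝ} (hg : ∀ x, 0 ≤ g x ∧ g x ≤ 1) (x : O) :
    0 ≤ gP L d g x ∧ gP L d g x ≤ 1 :=
  ⟨le_av_of_le hL fun _ _ => (hg _).1, av_le_of_le hL fun _ _ => (hg _).2⟩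

lemma gT_abs {L d : ℕ} (hL : 0 < L) {g : O → ℝ} (hg : ∀ x, 0 ≤ g x ∧ g x ≤ 1) (x : O) :
    |gT L d g x| ≤ 1 := by
  have h1 := gP_bd (d := d) hL hg x
  have h2 := hg x
  unfold gT
  rw [abs_le]
  constructor <;> linarith

lemma gT_av {W L d : ℕ} (hW : 0 < W) (hL : 0 < L) {g : O → ℝ} (hg : ∀ x, 0 ≤ g x ∧ g x ≤ 1)
    (x : O) : |av W (fun m => gT L d g (x + (d : O) * m))| ≤ 4 * L / W := by
  have hW' : (0 : ℝ) < W := by exact_mod_cast hW
  have e1 : av W (fun m => gT L d g (x + (d : O) * m)) =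
      av L (fun u => av W (fun m => g (x + (d : O) * m)) -
        av W (fun m => g (x + (d : O) * (m + u)))) := by
    rw [av_sub, av_const hL]
    unfold gT
    rw [av_sub]
    congr 1
    unfold gP
    rw [av_comm]
    refine av_congr fun u _ => av_congr fun m _ => ?_
    congr 1
    ring
  rw [e1]
  refine abs_av_le hL fun u hu => ?_
  rw [abs_sub_comm]
  refine (shift W hW (fun m => g (x + (d : O) * m)) (fun y => ?_) u).trans ?_
  · have := hg (x + (d : O) * y)
    rw [abs_le]
    constructor <;> linarith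
  · have := nn_Bx hu
    rw [div_le_div_iff_of_pos_right hW']
    linarith

lemma E2_snd {S : ℕ} (hS : 0 < S) (φ : O → ℝ) : E2 S (fun _ t => φ t) = av S φ := by
  unfold E2
  rw [av_const hS]

lemma E2_fst {S : ℕ} (hS : 0 < S) (φ : O → ℝ) : E2 S (fun s _ => φ s) = av S φ := by
  unfold E2
  simp only [av_const hS]

lemma cross {S W L d : ℕ} (hS : 0 < S) (hW : 0 < W) (hL : 0 < L) {g : O → ℝ}
    (hg : ∀ x, 0 ≤ g x ∧ g x ≤ 1) (l l' τ τ' e : O) (C : ℝ) (he : (l' - l) * e = d)
    (h1 : nn e ≤ C) (h2 : nn (l * e) ≤ C) :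
    |E2 S (fun s t => gT L d g (l * s + τ - t) * gT L d g (l' * s + τ' - t))| ≤
      16 * C * W / S + 4 * L / W := by
  have hS' : (0 : ℝ) < S := by exact_mod_cast hS
  have hW' : (0 : ℝ) < W := by exact_mod_cast hW
  set Φ : O → O → ℝ := fun s t => gT L d g (l * s + τ - t) * gT L d g (l' * s + τ' - t) with hΦ
  have hb : ∀ x y, |Φ x y| ≤ 1 := by
    intro x y
    rw [hΦ, abs_mul]
    exact mul_le_one₀ (gT_abs hL hg _) (abs_nonneg _) (gT_abs hL hg _)
  have a1 : |av W (fun m => E2 S (fun s t => Φ (s + e * m) (t + l * e * m))) - E2 S Φ| ≤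
      16 * C * W / S := by
    rw [← av_const hW (E2 S Φ), ← av_sub]
    refine abs_av_le hW fun m hm => ?_
    refine (shift2 S hS Φ hb (e * m) (l * e * m)).trans ?_
    have b1 := nn_mul_Bx hm e
    have b2 := nn_mul_Bx hm (l * e)
    have : 4 * nn e * W ≤ 4 * C * W := by gcongr
    have : 4 * nn (l * e) * W ≤ 4 * C * W := by gcongr
    rw [div_le_div_iff_of_pos_right hS']
    linarith
  have a2 : |av W (fun m => E2 S (fun s t => Φ (s + e * m) (t + l * e * m)))| ≤ 4 * L / W := by
    rw [← E2_av]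
    refine abs_E2_le hS fun s _ t _ => ?_
    have : ∀ m, Φ (s + e * m) (t + l * e * m) =
        gT L d g (l * s + τ - t) * gT L d g ((l' * s + τ' - t) + (d : O) * m) := by
      intro m
      rw [hΦ]
      simp only
      congr 2
      · ring
      · rw [← he]; ring
    simp only [this]
    rw [av_mul, abs_mul]
    have c1 := gT_abs (d := d) hL hg (l * s + τ - t)
    have c2 := gT_av (d := d) hW hL hg (l' * s + τ' - t)
    calc _ ≤ 1 * |av W (fun m => gT L d g (l' * s + τ' - t + (d : O) * m))| := by gcongr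
      _ ≤ _ := by rw [one_mul]; exact c2
  have := abs_sub_abs_le_abs_sub (E2 S Φ)
    (av W (fun m => E2 S (fun s t => Φ (s + e * m) (t + l * e * m))))
  rw [abs_sub_comm] at this
  linarith

lemma lowerP {S W L d : ℕ} (hS : 0 < S) (hW : 0 < W) (hL : 0 < L) (hLW : L ≤ W) {a g : O → ℝ}
    (ha : ∀ x, 0 ≤ a x ∧ a x ≤ 1) (hg : ∀ x, 0 ≤ g x ∧ g x ≤ 1) (l τ : O) (C D η Γ : ℝ)
    (hC : 1 ≤ C) (hl : nn l ≤ C) (hd : (d : ℝ) ≤ C) (hD0 : 0 ≤ D) (hD2 : D ≤ 2) (hη : 0 ≤ η)
    (h1 : ∀ s ∈ Bx S, av L (fun u => a (s + (d : O) * u)) ≤ D)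
    (h2 : ∀ s ∈ Bx S, av W (fun w => a (s + w)) ≤ D)
    (h3 : D - η ≤ av S a) (hΓ : Γ ≤ E2 S (fun s t => g (l * s + τ - t))) :
    D ^ 2 * Γ - 3 * η - 48 * (C * W / S) ≤
      E2 S (fun s t => a s * a t * gP L d g (l * s + τ - t)) := by
  have hS' : (0 : ℝ) < S := by exact_mod_cast hS
  have hW' : (0 : ℝ) < W := by exact_mod_cast hW
  have hLW' : (L : ℝ) ≤ W := by exact_mod_cast hLW
  have hLR : (0 : ℝ) < L := by exact_mod_cast hL
  set κ : ℝ := C * W / S with hκ
  have hκ0 : 0 ≤ κ := by positivity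
  have haa : ∀ x, |a x| ≤ 1 := fun x => by
    have := ha x
    rw [abs_le]
    constructor <;> linarith
  have hdn : nn (d : O) ≤ C := by
    unfold nn
    simpa using hd
  have hdu : ∀ u ∈ Bx L, nn ((d : O) * u) ≤ 4 * C * W := fun u hu => by
    refine (nn_mul_Bx hu _).trans ?_
    gcongr
  -- step i
  have i1 : E2 S (fun s t => a s * av L (fun u => a (t + (d : O) * u)) * g (l * s + τ - t)) -
      8 * κ ≤ E2 S (fun s t => a s * a t * gP L d g (l * s + τ - t)) := by
    have e1 : E2 S (fun s t => a s * a t * gP L d g (l * s + τ - t)) =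
        av L (fun u => E2 S (fun s t => a s * a t * g (l * s + τ - t + (d : O) * u))) := by
      rw [← E2_av]
      refine E2_congr fun s _ t _ => ?_
      rw [av_mul]
      rfl
    have e2 : E2 S (fun s t => a s * av L (fun u => a (t + (d : O) * u)) *
        g (l * s + τ - t)) =
        av L (fun u => E2 S (fun s t => a s * a (t + (d : O) * u) * g (l * s + τ - t))) := by
      rw [← E2_av]
      refine E2_congr fun s _ t _ => ?_
      rw [← av_mul, mul_comm, ← av_mul]
      refine av_congr fun u _ => ?_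
      ring
    rw [e1, e2, sub_le_iff_le_add, ← av_const hL (8 * κ), ← av_add]
    refine av_mono fun u hu => ?_
    have hb : ∀ x y, |(fun s t => a s * a (t + (d : O) * u) * g (l * s + τ - t)) x y| ≤ 1 := by
      intro x y
      have b1 := ha x
      have b2 := ha (y + (d : O) * u)
      have b3 := hg (l * x + τ - y)
      simp only
      rw [abs_of_nonneg (mul_nonneg (mul_nonneg b1.1 b2.1) b3.1)]
      exact mul_le_one₀ (mul_le_one₀ b1.2 b2.1 b2.2) b3.1 b3.2
    have := shift2 S hS _ hb 0 (-((d : O) * u))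
    have e3 : E2 S (fun s t => (fun s t => a s * a (t + (d : O) * u) * g (l * s + τ - t))
        (s + 0) (t + -((d : O) * u))) =
        E2 S (fun s t => a s * a t * g (l * s + τ - t + (d : O) * u)) := by
      refine E2_congr fun s _ t _ => ?_
      simp only [add_zero, neg_add_cancel_right]
      congr 2
      ring
    rw [e3] at this
    have n1 : nn (0 : O) = 0 := by simp [nn]
    have n2 : nn (-((d : O) * u)) = nn ((d : O) * u) := by simp [nn]
    rw [n1, n2, zero_add, abs_le] at this
    have n3 : 2 * nn ((d : O) * u) / S ≤ 8 * κ := by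
      rw [hκ, mul_div_assoc', div_le_div_iff_of_pos_right hS']
      linarith [hdu u hu]
    linarith [this.1]
  -- averages of the averages
  have av1 : D - η - 8 * κ ≤ av S (fun t => av L (fun u => a (t + (d : O) * u))) := by
    rw [av_comm]
    refine le_av_of_le hL fun u hu => ?_
    have := shift S hS a haa ((d : O) * u)
    rw [abs_le] at this
    have n3 : 2 * nn ((d : O) * u) / S ≤ 8 * κ := by
      rw [hκ, mul_div_assoc', div_le_div_iff_of_pos_right hS']
      linarith [hdu u hu]
    linarith [this.1]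
  have av2 : D - η - 4 * κ ≤ av S (fun t => av W (fun w => a (t + w))) := by
    rw [av_comm]
    refine le_av_of_le hW fun w hw => ?_
    have := shift S hS a haa w
    rw [abs_le] at this
    have n3 : 2 * nn w / S ≤ 4 * κ := by
      rw [hκ, mul_div_assoc', div_le_div_iff_of_pos_right hS']
      have := nn_Bx hw
      nlinarith
    linarith [this.1]
  -- step ii
  have i2 : D * E2 S (fun s t => a s * g (l * s + τ - t)) - (η + 8 * κ) ≤
      E2 S (fun s t => a s * av L (fun u => a (t + (d : O) * u)) * g (l * s + τ - t)) := by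
    have : E2 S (fun s t => D * (a s * g (l * s + τ - t)) -
        (D - av L (fun u => a (t + (d : O) * u)))) ≤
        E2 S (fun s t => a s * av L (fun u => a (t + (d : O) * u)) * g (l * s + τ - t)) := by
      refine E2_mono fun s _ t ht => ?_
      have b1 := ha s
      have b3 := hg (l * s + τ - t)
      have b4 : a s * g (l * s + τ - t) ≤ 1 := mul_le_one₀ b1.2 b3.1 b3.2
      have b5 := h1 t ht
      nlinarith
    rw [E2_sub, E2_mul, E2_snd hS (fun t => D - av L (fun u => a (t + (d : O) * u))),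
      av_sub, av_const hS] at this
    linarith
  -- step iii
  have i3 : E2 S (fun s t => av W (fun w => a (s + w)) * g (l * s + τ - t)) - 12 * κ ≤
      E2 S (fun s t => a s * g (l * s + τ - t)) := by
    have e2 : E2 S (fun s t => av W (fun w => a (s + w)) * g (l * s + τ - t)) =
        av W (fun w => E2 S (fun s t => a (s + w) * g (l * s + τ - t))) := by
      rw [← E2_av]
      refine E2_congr fun s _ t _ => ?_
      rw [mul_comm, ← av_mul]
      refine av_congr fun u _ => ?_
      ring
    rw [e2, sub_le_iff_le_add]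
    refine av_le_of_le hW fun w hw => ?_
    have hb : ∀ x y, |(fun s t => a s * g (l * s + τ - t)) x y| ≤ 1 := by
      intro x y
      have b1 := ha x
      have b3 := hg (l * x + τ - y)
      simp only
      rw [abs_of_nonneg (mul_nonneg b1.1 b3.1)]
      exact mul_le_one₀ b1.2 b3.1 b3.2
    have := shift2 S hS _ hb w (l * w)
    have e3 : E2 S (fun s t => (fun s t => a s * g (l * s + τ - t)) (s + w) (t + l * w)) =
        E2 S (fun s t => a (s + w) * g (l * s + τ - t)) := by
      refine E2_congr fun s _ t _ => ?_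
      simp only
      congr 2
      ring
    rw [e3, abs_le] at this
    have n3 : 2 * (nn w + nn (l * w)) / S ≤ 12 * κ := by
      rw [hκ, mul_div_assoc', div_le_div_iff_of_pos_right hS']
      have c1 := nn_Bx hw
      have c2 := nn_mul_Bx hw l
      have c3 : 4 * nn l * W ≤ 4 * C * W := by gcongr
      nlinarith
    linarith [this.2]
  -- step iv
  have i4 : D * Γ - (η + 4 * κ) ≤
      E2 S (fun s t => av W (fun w => a (s + w)) * g (l * s + τ - t)) := by
    have : E2 S (fun s t => D * g (l * s + τ - t) - (D - av W (fun w => a (s + w)))) ≤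
        E2 S (fun s t => av W (fun w => a (s + w)) * g (l * s + τ - t)) := by
      refine E2_mono fun s hs t _ => ?_
      have b3 := hg (l * s + τ - t)
      have b5 := h2 s hs
      nlinarith
    rw [E2_sub, E2_mul, E2_fst hS (fun s => D - av W (fun w => a (s + w))),
      av_sub, av_const hS] at this
    nlinarith
  have i5 : D * (D * Γ - (η + 4 * κ) - 12 * κ) ≤ D * E2 S (fun s t => a s * g (l * s + τ - t)) :=
    mul_le_mul_of_nonneg_left (by linarith) hD0
  nlinarith

theorem main_ineq {S W L N d : ℕ} (hS : 0 < S) (hW : 0 < W) (hL : 0 < L) (hN : 0 < N)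
    (hLW : L ≤ W) {a g : O → ℝ}
    (ha : ∀ x, 0 ≤ a x ∧ a x ≤ 1) (hg : ∀ x, 0 ≤ g x ∧ g x ≤ 1) (lam tau : ℕ → O)
    (e : ℕ → ℕ → O) (C D η Γ : ℝ)
    (he : ∀ v < N, ∀ v' < N, v ≠ v' → (lam v' - lam v) * e v v' = d)
    (hC : 1 ≤ C) (hl : ∀ v < N, nn (lam v) ≤ C) (hee : ∀ v < N, ∀ v' < N, nn (e v v') ≤ C)
    (hle : ∀ v < N, ∀ v' < N, nn (lam v * e v v') ≤ C)
    (hd : (d : ℝ) ≤ C) (hD0 : 0 ≤ D) (hD2 : D ≤ 2) (hη : 0 ≤ η)
    (h1 : ∀ s ∈ Bx S, av L (fun u => a (s + (d : O) * u)) ≤ D)
    (h2 : ∀ s ∈ Bx S, av W (fun w => a (s + w)) ≤ D)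
    (h3 : D - η ≤ av S a) (hΓ : ∀ v < N, Γ ≤ E2 S (fun s t => g (lam v * s + tau v - t)))
    (h0 : ∀ v < N, E2 S (fun s t => a s * a t * g (lam v * s + tau v - t)) = 0) :
    D ^ 2 * Γ ≤ √(1 / N + 16 * (C * W / S) + 4 * (L / W)) + 3 * η + 48 * (C * W / S) := by
  have hS' : (0 : ℝ) < S := by exact_mod_cast hS
  have hW' : (0 : ℝ) < W := by exact_mod_cast hW
  have hN' : (0 : ℝ) < N := by exact_mod_cast hN
  set B : ℝ := D ^ 2 * Γ - 3 * η - 48 * (C * W / S) with hB
  have p1 : ∀ v ∈ range N, B ≤ E2 S (fun s t => a s * a t * gP L d g (lam v * s + tau v - t)) := by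
    intro v hv
    rw [mem_range] at hv
    exact lowerP hS hW hL hLW ha hg (lam v) (tau v) C D η Γ hC (hl v hv) hd hD0 hD2 hη h1 h2 h3
      (hΓ v hv)
  set Ψ : O → O → ℝ := fun s t => ∑ v ∈ range N, gT L d g (lam v * s + tau v - t) with hΨ
  have p2 : ∑ v ∈ range N, E2 S (fun s t => a s * a t * gP L d g (lam v * s + tau v - t)) =
      - E2 S (fun s t => a s * a t * Ψ s t) := by
    have : E2 S (fun s t => a s * a t * Ψ s t) =
        ∑ v ∈ range N, E2 S (fun s t => a s * a t * gT L d g (lam v * s + tau v - t)) := by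
      rw [← E2_sum]
      refine E2_congr fun s _ t _ => ?_
      rw [hΨ]
      simp only
      rw [mul_sum]
    rw [this, ← sum_neg_distrib]
    refine sum_congr rfl fun v hv => ?_
    rw [mem_range] at hv
    have h4 := h0 v hv
    have : E2 S (fun s t => a s * a t * g (lam v * s + tau v - t)) =
        E2 S (fun s t => a s * a t * gT L d g (lam v * s + tau v - t)) +
        E2 S (fun s t => a s * a t * gP L d g (lam v * s + tau v - t)) := by
      rw [← E2_add]
      refine E2_congr fun s _ t _ => ?_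
      unfold gT
      ring
    linarith
  have p3 : (E2 S (fun s t => a s * a t * Ψ s t)) ^ 2 ≤ E2 S (fun s t => Ψ s t ^ 2) := by
    refine (E2_sq_le hS _).trans (E2_mono fun s _ t _ => ?_)
    have b1 := ha s
    have b2 := ha t
    have b4 : a s * a t ≤ 1 := mul_le_one₀ b1.2 b2.1 b2.2
    have b5 : 0 ≤ a s * a t := mul_nonneg b1.1 b2.1
    rw [mul_pow]
    have : (a s * a t) ^ 2 ≤ 1 := pow_le_one₀ b5 b4
    nlinarith [sq_nonneg (Ψ s t)]
  set δ : ℝ := 16 * C * W / S + 4 * L / W with hδ
  have hδ0 : 0 ≤ δ := by positivity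
  have p4 : E2 S (fun s t => Ψ s t ^ 2) ≤ N + N ^ 2 * δ := by
    have : E2 S (fun s t => Ψ s t ^ 2) = ∑ v ∈ range N, ∑ v' ∈ range N,
        E2 S (fun s t => gT L d g (lam v * s + tau v - t) *
          gT L d g (lam v' * s + tau v' - t)) := by
      simp only [← E2_sum]
      refine E2_congr fun s _ t _ => ?_
      rw [hΨ]
      simp only
      rw [sq, sum_mul_sum]
    rw [this]
    have q : ∀ v ∈ range N, ∑ v' ∈ range N, E2 S (fun s t => gT L d g (lam v * s + tau v - t) *
          gT L d g (lam v' * s + tau v' - t)) ≤ 1 + N * δ := by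
      intro v hv
      have : ∀ v' ∈ range N, E2 S (fun s t => gT L d g (lam v * s + tau v - t) *
          gT L d g (lam v' * s + tau v' - t)) ≤ (if v' = v then 1 else 0) + δ := by
        intro v' hv'
        rw [mem_range] at hv hv'
        split_ifs with h
        · have : |E2 S (fun s t => gT L d g (lam v * s + tau v - t) *
              gT L d g (lam v' * s + tau v' - t))| ≤ 1 := by
            refine abs_E2_le hS fun s _ t _ => ?_
            rw [abs_mul]
            exact mul_le_one₀ (gT_abs hL hg _) (abs_nonneg _) (gT_abs hL hg _)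
          linarith [(abs_le.mp this).2]
        · have := cross hS hW hL hg (lam v) (lam v') (tau v) (tau v') (e v v') C
            (he v hv v' hv' (Ne.symm h)) (hee v hv v' hv') (hle v hv v' hv')
          rw [zero_add]
          exact (abs_le.mp this).2
      refine (sum_le_sum this).trans ?_
      rw [sum_add_distrib, sum_ite_eq', if_pos hv]
      simp
    refine (sum_le_sum q).trans_eq ?_
    simp
    ring
  have p5 : N * B ≤ ∑ v ∈ range N,
      E2 S (fun s t => a s * a t * gP L d g (lam v * s + tau v - t)) := by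
    have := sum_le_sum p1
    simpa using this
  rw [p2] at p5
  have p6 : N * B ≤ √(N + N ^ 2 * δ) := by
    refine p5.trans ((neg_le_abs _).trans ?_)
    refine Real.le_sqrt_of_sq_le ?_
    rw [sq_abs]
    exact p3.trans p4
  have p7 : √((N : ℝ) + N ^ 2 * δ) = N * √(1 / N + δ) := by
    rw [← Real.sqrt_sq hN'.le, ← Real.sqrt_mul (by positivity), Real.sqrt_sq hN'.le]
    congr 1
    field_simp
  rw [p7] at p6
  have p8 := le_of_mul_le_mul_left p6 hN'
  have : δ = 16 * (C * W / S) + 4 * (L / W) := by rw [hδ]; ring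
  rw [this, ← add_assoc] at p8
  linarith

end Pool.Agent.H38.PR
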